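import Mathlib

namespace Pool.MP_c85420_an

/-- A class of (real) normed spaces, used to model a class of Banach spaces. -/
def NClass : Type 1 := ∀ (T : Type) [NormedAddCommGroup T] [NormedSpace ℝ T], Prop

/-- The class of finite-dimensional spaces. -/
def finDim : NClass := fun T _ _ => FiniteDimensional ℝ T

/-- The class of separable spaces. -/
def sepble : NClass := fun T _ _ => TopologicalSpace.SeparableSpace T

/-- `X` is of universal disposition for the Banach spaces in the class `K`: whenever `T` is a
Banach space, `S ⊆ T` a closed subspace, both in `K`, every linear isometric embedding `S → X`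
extends to a linear isometric embedding `T → X`. -/
def UniversalDisposition (K : NClass) (X : Type) [NormedAddCommGroup X] [NormedSpace ℝ X] : Prop :=
  ∀ (T : Type) [NormedAddCommGroup T] [NormedSpace ℝ T] [CompleteSpace T], K T →
    ∀ S : Submodule ℝ T, IsClosed (S : Set T) → K S →
      ∀ f : S →ₗᵢ[ℝ] X, ∃ g : T →ₗᵢ[ℝ] X, ∀ s : S, g (s : T) = f s

/-- `X` is homogeneous with respect to `K`: every bijective linear isometry between two closed
subspaces of `X` belonging to `K` extends to a linear isometry of `X` onto `X`. -/
def Homogeneous (K : NClass) (X : Type) [NormedAddCommGroup X] [NormedSpace ℝ X] : Prop :=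
  ∀ E F : Submodule ℝ X, IsClosed (E : Set X) → IsClosed (F : Set X) → K E → K F →
    ∀ φ : E ≃ₗᵢ[ℝ] F, ∃ Φ : X ≃ₗᵢ[ℝ] X, ∀ x : E, Φ (x : X) = (φ x : X)

end Pool.MP_c85420_an
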