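import Pool.Agent.Lib.MP_c85420_an.Tower
import Pool.Agent.Lib.MP_c85420_an.Defs

open Set Filter Topology
open scoped ENNReal ZeroAtInfty BoundedContinuousFunction

noncomputable section

set_option linter.unusedSectionVars false
set_option linter.unusedVariables false

namespace Pool.MP_c85420_an

/-- The Banach space `c₀` of real null sequences. -/
abbrev c0 : Type := C₀(ℕ, ℝ)

/-- Build an element of `c₀` from a null sequence. -/
def mkc0 (u : ℕ → ℝ) (hu : Tendsto u atTop (𝓝 0)) : c0 where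
  toFun := u
  continuous_toFun := continuous_of_discreteTopology
  zero_at_infty' := by
    rw [Filter.cocompact_eq_cofinite, Nat.cofinite_eq_atTop]
    exact hu

@[simp] lemma mkc0_apply (u : ℕ → ℝ) (hu : Tendsto u atTop (𝓝 0)) (n : ℕ) :
    mkc0 u hu n = u n := rfl

lemma c0_tendsto (x : c0) : Tendsto (fun n => x n) atTop (𝓝 0) := by
  have := x.zero_at_infty'
  rw [Filter.cocompact_eq_cofinite, Nat.cofinite_eq_atTop] at this
  exact this

lemma c0_norm_le {x : c0} {C : ℝ} (hC : 0 ≤ C) (h : ∀ n, |x n| ≤ C) : ‖x‖ ≤ C := by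
  rw [← ZeroAtInftyContinuousMap.norm_toBCF_eq_norm]
  rw [BoundedContinuousFunction.norm_le hC]
  intro n
  exact h n

lemma c0_apply_le (x : c0) (n : ℕ) : |x n| ≤ ‖x‖ := by
  rw [← ZeroAtInftyContinuousMap.norm_toBCF_eq_norm]
  exact BoundedContinuousFunction.norm_coe_le_norm x.toBCF n

/-- The unit vectors of `c₀`. -/
def ek (k : ℕ) : c0 := mkc0 (fun n => if n = k then 1 else 0) (by
  apply tendsto_atTop_of_eventually_const (i₀ := k + 1)
  intro n hn
  simp; omega)

lemma ek_apply (k n : ℕ) : ek k n = if n = k then 1 else 0 := rfl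

instance : Nontrivial c0 := ⟨⟨ek 0, 0, by
  intro h
  have := congrArg (fun x : c0 => x 0) h
  simp [ek_apply] at this⟩⟩

/-- Coordinate functionals. -/
def coord (n : ℕ) : c0 →L[ℝ] ℝ :=
  LinearMap.mkContinuous
    { toFun := fun x => x n
      map_add' := fun x y => rfl
      map_smul' := fun c x => rfl } 1 (by
        intro x
        rw [one_mul]
        exact c0_apply_le x n)

lemma coord_apply (n : ℕ) (x : c0) : coord n x = x n := rfl

/-- Hahn-Banach along an isometric embedding. -/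
lemma hb {E V : Type} [NormedAddCommGroup E] [NormedSpace ℝ E] [NormedAddCommGroup V]
    [NormedSpace ℝ V] (a : E →ₗᵢ[ℝ] V) (f : E →L[ℝ] ℝ) :
    ∃ g : V →L[ℝ] ℝ, (∀ x, g (a x) = f x) ∧ ‖g‖ ≤ ‖f‖ := by
  obtain ⟨g, hg, hn⟩ := exists_extension_norm_eq (LinearMap.range a.toLinearMap)
    (f.comp (a.equivRange.symm.toContinuousLinearEquiv : _ →L[ℝ] E))
  refine ⟨g, ?_, ?_⟩
  · intro x
    have := hg (a.equivRange x)
    simp at this
    exact this
  · rw [hn]
    apply ContinuousLinearMap.opNorm_le_bound _ (norm_nonneg f)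
    intro x
    have := f.le_opNorm (a.equivRange.symm x)
    rw [LinearIsometryEquiv.norm_map] at this
    exact this

theorem FDExt_c0 : FDExt c0 := by
  intro V _ _ E _ _ _ a c
  let f : ℕ → (E →L[ℝ] ℝ) := fun n => (coord n).comp c.1
  have hf : ∀ n x, f n x = c.1 x n := fun n x => rfl
  have hf1 : ∀ n, ‖f n‖ ≤ 1 := by
    intro n
    apply ContinuousLinearMap.opNorm_le_bound _ zero_le_one
    intro x
    rw [hf, one_mul]
    exact (c0_apply_le _ n).trans (c.le x)
  have hf0 : Tendsto (fun n => ‖f n‖) atTop (𝓝 0) := by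
    let b := Module.finBasis ℝ E
    obtain ⟨C, hC, hCb⟩ := b.exists_opNorm_le (F := ℝ)
    have h1 : Tendsto (fun n => C * ∑ i, ‖f n (b i)‖) atTop (𝓝 0) := by
      have : Tendsto (fun n => C * ∑ i, ‖f n (b i)‖) atTop 
          (𝓝 (C * ∑ _i : Fin (Module.finrank ℝ E), (0 : ℝ))) := by
        apply Tendsto.const_mul
        apply tendsto_finsetSum
        intro i _
        have := (c0_tendsto (c.1 (b i))).norm
        simpa [hf] using this
      simpa using this
    refine squeeze_zero (fun n => norm_nonneg _) (fun n => ?_) h1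
    apply hCb
    · positivity
    · intro i
      exact Finset.single_le_sum (f := fun i => ‖f n (b i)‖) (fun i _ => norm_nonneg _)
        (Finset.mem_univ i)
  choose g hg1 hg2 using fun n => hb a (f n)
  have hg3 : ∀ x : V, Tendsto (fun n => g n x) atTop (𝓝 0) := by
    intro x
    have h1 : Tendsto (fun n => ‖f n‖ * ‖x‖) atTop (𝓝 0) := by
      have := hf0.mul_const ‖x‖
      simpa using this
    apply squeeze_zero_norm _ h1
    intro n
    calc ‖g n x‖ ≤ ‖g n‖ * ‖x‖ := (g n).le_opNorm x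
      _ ≤ ‖f n‖ * ‖x‖ := by gcongr; exact hg2 n
  let L : V →ₗ[ℝ] c0 :=
    { toFun := fun x => mkc0 (fun n => g n x) (hg3 x)
      map_add' := by
        intro x y
        ext n
        show g n (x + y) = g n x + g n y
        rw [map_add]
      map_smul' := by
        intro r x
        ext n
        show g n (r • x) = r * g n x
        rw [map_smul, smul_eq_mul] }
  have hL : ∀ x, ‖L x‖ ≤ ‖x‖ := by
    intro x
    apply c0_norm_le (norm_nonneg x)
    intro n
    show ‖g n x‖ ≤ ‖x‖
    calc ‖g n x‖ ≤ ‖g n‖ * ‖x‖ := (g n).le_opNorm x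
      _ ≤ 1 * ‖x‖ := by gcongr; exact (hg2 n).trans (hf1 n)
      _ = ‖x‖ := one_mul _
  refine ⟨Op.mk' L hL, ?_⟩
  apply Op.ext'
  intro x
  ext n
  show g n (a x) = c.1 x n
  rw [hg1, hf]

/-! ### The separable pair `c₀ ∩ T ⊆ T` without extension -/

/-- `c₀` inside bounded sequences. -/
def j0 : c0 →ₗᵢ[ℝ] (ℕ →ᵇ ℝ) where
  toFun := fun x => x.toBCF
  map_add' x y := rfl
  map_smul' c x := rfl
  norm_map' x := ZeroAtInftyContinuousMap.norm_toBCF_eq_norm

lemma j0_apply (x : c0) (n : ℕ) : j0 x n = x n := rfl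

/-- A countable generating set. -/
def gens : Set (ℕ →ᵇ ℝ) := insert 1 (Set.range fun k => j0 (ek k))

/-- A separable Banach space, containing the unit vectors and the constant sequence `1`. -/
def TT : Submodule ℝ (ℕ →ᵇ ℝ) := (Submodule.span ℝ gens).topologicalClosure

lemma TT_closed : IsClosed (TT : Set (ℕ →ᵇ ℝ)) := Submodule.isClosed_topologicalClosure _

instance : CompleteSpace TT := TT_closed.completeSpace_coe

instance : TopologicalSpace.SeparableSpace TT := by
  have h1 : gens.Countable := (Set.countable_range _).insert _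
  have h2 : TopologicalSpace.IsSeparable ((Submodule.span ℝ gens : Submodule ℝ (ℕ →ᵇ ℝ)) :
      Set (ℕ →ᵇ ℝ)) := h1.isSeparable.span
  have h3 : TopologicalSpace.IsSeparable (TT : Set (ℕ →ᵇ ℝ)) := by
    have := h2.closure
    rwa [← Submodule.topologicalClosure_coe] at this
  exact h3.separableSpace

lemma one_mem_TT : (1 : ℕ →ᵇ ℝ) ∈ TT :=
  Submodule.le_topologicalClosure _ (Submodule.subset_span (Set.mem_insert _ _))

lemma ek_mem_TT (k : ℕ) : j0 (ek k) ∈ TT :=
  Submodule.le_topologicalClosure _ (Submodule.subset_span (Set.mem_insert_of_mem _ ⟨k, rfl⟩))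

lemma range_j0_closed : IsClosed (Set.range j0) := by
  have : CompleteSpace c0 := inferInstance
  exact j0.isometry.isClosedEmbedding.isClosed_range

section Abs

variable {T : Type} [NormedAddCommGroup T] [NormedSpace ℝ T]
  (jT : T →ₗᵢ[ℝ] (ℕ →ᵇ ℝ))

/-- The subspace of null sequences in `T`. -/
def SS : Submodule ℝ T := (LinearMap.range j0.toLinearMap).comap jT.toLinearMap

lemma SS_closed : IsClosed (SS jT : Set T) :=
  range_j0_closed.preimage jT.continuous

lemma exists_SS_map : ∃ f : SS jT →ₗᵢ[ℝ] c0, ∀ s, j0 (f s) = jT (s : T) := by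
  apply exists_lift_isometry (jT.comp (SS jT).subtypeₗᵢ) j0
  intro s
  obtain ⟨y, hy⟩ := s.2
  exact ⟨y, hy⟩

/-- A space in which `c₀` is one-complemented is not of universal disposition for separable
spaces. -/
theorem not_UD_sep_aux {X : Type} [NormedAddCommGroup X] [NormedSpace ℝ X] (i : c0 →ₗᵢ[ℝ] X)
    (P : Op c0 X) (hP : ∀ w, P.1 (i w) = w) [CompleteSpace T] [hT : TopologicalSpace.SeparableSpace T]
    (u : T) (hu : jT u = 1) (v : ℕ → T) (hv : ∀ k, jT (v k) = j0 (ek k)) :
    ¬ UniversalDisposition sepble X := by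
  intro hUD
  obtain ⟨f, hf⟩ := exists_SS_map jT
  have hSsep : sepble (SS jT) := by
    show TopologicalSpace.SeparableSpace (SS jT)
    infer_instance
  obtain ⟨g, hg⟩ := hUD T hT (SS jT) (SS_closed jT) hSsep (i.comp f)
  have hvS : ∀ k, v k ∈ SS jT := fun k => ⟨ek k, (hv k).symm⟩
  have hgv : ∀ k, P.1 (g (v k)) = ek k := by
    intro k
    have h1 := hg ⟨v k, hvS k⟩
    have h2 : f ⟨v k, hvS k⟩ = ek k := by
      apply j0.injective
      rw [hf]
      exact hv k
    have h3 : g (v k) = i (ek k) := by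
      rw [← h2]
      exact h1
    rw [h3, hP]
  have hn : ∀ k, ‖u - (2 : ℝ) • v k‖ ≤ 1 := by
    intro k
    rw [← jT.norm_map, map_sub, map_smul, hu, hv]
    rw [BoundedContinuousFunction.norm_le zero_le_one]
    intro n
    show ‖(1 : ℝ) - 2 * ek k n‖ ≤ 1
    rw [ek_apply]
    split_ifs
    · norm_num
    · norm_num
  have hq : ∀ k, 1 ≤ P.1 (g u) k := by
    intro k
    have h1 : ‖P.1 (g (u - (2 : ℝ) • v k))‖ ≤ 1 := by
      refine (P.le _).trans ?_
      rw [g.norm_map]
      exact hn k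
    have h1' : P.1 (g (u - (2 : ℝ) • v k)) = P.1 (g u) - (2 : ℝ) • ek k := by
      rw [map_sub g, map_smul g, ← hgv k]
      exact ((P.1).map_sub _ _).trans (by rw [ContinuousLinearMap.map_smul])
    rw [h1'] at h1
    have h2 := (c0_apply_le _ k).trans h1
    have h3 : (P.1 (g u) - (2 : ℝ) • ek k : c0) k = P.1 (g u) k - 2 := by
      show P.1 (g u) k - 2 * ek k k = _
      rw [ek_apply, if_pos rfl, mul_one]
    rw [h3, abs_le] at h2
    linarith [h2.1]
  have h0 := c0_tendsto (P.1 (g u))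
  have := ge_of_tendsto' h0 hq
  linarith

end Abs

theorem not_UD_sep {X : Type} [NormedAddCommGroup X] [NormedSpace ℝ X] (i : c0 →ₗᵢ[ℝ] X)
    (P : Op c0 X) (hP : ∀ w, P.1 (i w) = w) : ¬ UniversalDisposition sepble X :=
  not_UD_sep_aux (T := TT) TT.subtypeₗᵢ i P hP ⟨1, one_mem_TT⟩ rfl
    (fun k => ⟨j0 (ek k), ek_mem_TT k⟩) (fun k => rfl)

/-! ### The index -/

/-- The set of countable ordinals. -/
abbrev JJ : Type := (Cardinal.aleph 1).ord.ToType

instance : NoMaxOrder JJ := Cardinal.noMaxOrder (Cardinal.aleph0_le_aleph 1)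

lemma JJ_bdd (u : ℕ → JJ) : ∃ b, ∀ n, u n ≤ b := by
  by_contra h
  push Not at h
  have h1 : IsCofinal (Set.range u) := by
    intro b
    obtain ⟨n, hn⟩ := h b
    exact ⟨u n, ⟨n, rfl⟩, hn.le⟩
  have h2 : Order.cof JJ ≤ Cardinal.mk (Set.range u) := Order.cof_le h1
  have h3 : Cardinal.mk (Set.range u) ≤ Cardinal.aleph0 := Cardinal.mk_range_le.trans (by simp)
  have h4 : Order.cof JJ = Cardinal.aleph 1 := by
    rw [Ordinal.cof_toType]
    exact Cardinal.isRegular_aleph_one.cof_ord
  rw [h4] at h2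
  have := h2.trans h3
  exact absurd this (not_le.2 Cardinal.aleph0_lt_aleph_one)

end Pool.MP_c85420_an
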