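import Pool.Agent.Lib.MP_c85420_an.Lim

open Set Filter Topology CategoryTheory CategoryTheory.Limits
open scoped ENNReal

noncomputable section

set_option linter.unusedSectionVars false
set_option linter.unusedVariables false

namespace Pool.MP_c85420_an

/-- A bundled function. -/
structure Fn (A B : Type) where
  toFun : A → B

instance (A B : Type) : FunLike (Fn A B) A B where
  coe := Fn.toFun
  coe_injective := by
    rintro ⟨f⟩ ⟨g⟩ h
    congr

@[simp] lemma Fn.mk_apply {A B : Type} (f : A → B) (a : A) : (Fn.mk f) a = f a := rfl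

variable (W : Type) [NormedAddCommGroup W] [NormedSpace ℝ W]

/-- A normed space with a contraction into `W` and a family of isometries. -/
structure Obj where
  V : Type
  [grp : NormedAddCommGroup V]
  [spc : NormedSpace ℝ V]
  P : Op W V
  G : Type
  ρ : G → (V ≃ₗᵢ[ℝ] V)

attribute [instance] Obj.grp Obj.spc

variable {W}

/-- Morphisms: isometric embeddings commuting with the contraction and the isometries. -/
@[ext]
structure Obj.Hom (A B : Obj W) where
  j : A.V →ₗᵢ[ℝ] B.V
  γ : Fn A.G B.G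
  comm : ∀ g x, j (A.ρ g x) = B.ρ (γ g) (j x)
  proj : ∀ x, B.P.1 (j x) = A.P.1 x

instance : Category (Obj W) where
  Hom := Obj.Hom
  id A := ⟨LinearIsometry.id, ⟨id⟩, fun _ _ => rfl, fun _ => rfl⟩
  comp {A B C} f g := ⟨g.j.comp f.j, ⟨fun x => g.γ (f.γ x)⟩, by
      intro h x
      simp [f.comm, g.comm], by
      intro x
      simp [f.proj, g.proj]⟩

@[ext] lemma Obj.hom_ext {A B : Obj W} {f g : A ⟶ B} (h₁ : ∀ x, f.j x = g.j x)
    (h₂ : ∀ x, f.γ x = g.γ x) : f = g := by
  apply Obj.Hom.ext
  · ext1 x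
    exact h₁ x
  · exact DFunLike.ext _ _ h₂

@[simp] lemma Obj.id_j (A : Obj W) (x : A.V) : (𝟙 A : A ⟶ A).j x = x := rfl
@[simp] lemma Obj.id_γ (A : Obj W) (x : A.G) : (𝟙 A : A ⟶ A).γ x = x := rfl
@[simp] lemma Obj.comp_j {A B C : Obj W} (f : A ⟶ B) (g : B ⟶ C) (x : A.V) :
    (f ≫ g).j x = g.j (f.j x) := rfl
@[simp] lemma Obj.comp_γ {A B C : Obj W} (f : A ⟶ B) (g : B ⟶ C) (x : A.G) :
    (f ≫ g).γ x = g.γ (f.γ x) := rfl

section Colim

variable {K : Type} [Preorder K] [IsDirectedOrder K] [Nonempty K] (F : K ⥤ Obj W)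

/-- carrier system -/
abbrev sysV (i : K) : Type := (F.obj i).V
/-- group-like system -/
abbrev sysG (i : K) : Type := (F.obj i).G
/-- transition maps -/
def sysf (i j : K) (h : i ≤ j) : sysV F i →ₗᵢ[ℝ] sysV F j := (F.map (homOfLE h)).j
/-- transition maps -/
def sysg (i j : K) (h : i ≤ j) : Fn (sysG F i) (sysG F j) := (F.map (homOfLE h)).γ

instance : DirectedSystem (sysV F) (fun i j h => sysf F i j h) where
  map_self i x := by
    have : homOfLE (le_refl i) = 𝟙 i := rfl
    simp only [sysf, this, F.map_id]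
    rfl
  map_map i j k hij hjk x := by
    have : homOfLE (hij.trans hjk) = homOfLE hij ≫ homOfLE hjk := rfl
    simp only [sysf, this, F.map_comp]
    rfl

instance : DirectedSystem (sysG F) (fun i j h => sysg F i j h) where
  map_self i x := by
    have : homOfLE (le_refl i) = 𝟙 i := rfl
    simp only [sysg, this, F.map_id]
    rfl
  map_map i j k hij hjk x := by
    have : homOfLE (hij.trans hjk) = homOfLE hij ≫ homOfLE hjk := rfl
    simp only [sysg, this, F.map_comp]
    rfl

/-- The limit carrier. -/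
abbrev LV : Type := NLim (sysV F) (sysf F)
/-- The limit of the isometry parameter sets. -/
abbrev LG : Type := DirectLimit (sysG F) (sysg F)

/-- action of the limit -/
def act : LG F → LV F → LV F :=
  DirectLimit.map₂ (sysg F) (sysf F) (sysf F) (fun i g x => (F.obj i).ρ g x)
    (fun i j h g x => (F.map (homOfLE h)).comm g x)

/-- inverse action of the limit -/
def actInv : LG F → LV F → LV F :=
  DirectLimit.map₂ (sysg F) (sysf F) (sysf F) (fun i g x => ((F.obj i).ρ g).symm x)
    (fun i j h g x => by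
      apply ((F.obj j).ρ (sysg F i j h g)).injective
      rw [LinearIsometryEquiv.apply_symm_apply]
      have := (F.map (homOfLE h)).comm g (((F.obj i).ρ g).symm x)
      rw [LinearIsometryEquiv.apply_symm_apply] at this
      exact this.symm)

lemma act_mk (i : K) (g : sysG F i) (x : sysV F i) :
    act F ⟦⟨i, g⟩⟧ (NLim.mk _ _ i x) = NLim.mk _ _ i ((F.obj i).ρ g x) :=
  DirectLimit.map₂_def (sysg F) (sysf F) (sysf F) (fun i g x => (F.obj i).ρ g x) _ i g x

lemma actInv_mk (i : K) (g : sysG F i) (x : sysV F i) :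
    actInv F ⟦⟨i, g⟩⟧ (NLim.mk _ _ i x) = NLim.mk _ _ i (((F.obj i).ρ g).symm x) :=
  DirectLimit.map₂_def (sysg F) (sysf F) (sysf F) (fun i g x => ((F.obj i).ρ g).symm x) _ i g x

lemma exists_rep (g : LG F) (z : LV F) :
    ∃ i, ∃ (h : sysG F i) (x : sysV F i), g = ⟦⟨i, h⟩⟧ ∧ z = NLim.mk _ _ i x := by
  obtain ⟨i, h, rfl⟩ := DirectLimit.exists_eq_mk _ g
  obtain ⟨j, x, rfl⟩ := DirectLimit.exists_eq_mk _ z
  obtain ⟨k, hik, hjk⟩ := exists_ge_ge i j
  exact ⟨k, sysg F i k hik h, sysf F j k hjk x, (DirectLimit.mk_apply (f := sysg F) i k h hik).symm,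
    (NLim.mk_map j k hjk x).symm⟩

lemma exists_rep₂ (g : LG F) (z w : LV F) :
    ∃ i, ∃ (h : sysG F i) (x y : sysV F i), g = ⟦⟨i, h⟩⟧ ∧ z = NLim.mk _ _ i x ∧
      w = NLim.mk _ _ i y := by
  obtain ⟨i, h, x, rfl, rfl⟩ := exists_rep F g z
  obtain ⟨j, y, rfl⟩ := DirectLimit.exists_eq_mk _ w
  obtain ⟨k, hik, hjk⟩ := exists_ge_ge i j
  exact ⟨k, sysg F i k hik h, sysf F i k hik x, sysf F j k hjk y,
    (DirectLimit.mk_apply (f := sysg F) i k h hik).symm,
    (NLim.mk_map i k hik x).symm, (NLim.mk_map j k hjk y).symm⟩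

/-- The linear equivalence attached to an element of the limit. -/
def limρLin (g : LG F) : LV F ≃ₗ[ℝ] LV F where
  toFun := act F g
  invFun := actInv F g
  map_add' z w := by
    obtain ⟨i, h, x, y, rfl, rfl, rfl⟩ := exists_rep₂ F g z w
    rw [NLim.mk_add, act_mk, act_mk, act_mk, NLim.mk_add, map_add]
  map_smul' c z := by
    obtain ⟨i, h, x, rfl, rfl⟩ := exists_rep F g z
    rw [NLim.mk_smul, act_mk, act_mk, map_smul, RingHom.id_apply, NLim.mk_smul]
  left_inv z := by
    obtain ⟨i, h, x, rfl, rfl⟩ := exists_rep F g z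
    rw [act_mk, actInv_mk, LinearIsometryEquiv.symm_apply_apply]
  right_inv z := by
    obtain ⟨i, h, x, rfl, rfl⟩ := exists_rep F g z
    rw [actInv_mk, act_mk, LinearIsometryEquiv.apply_symm_apply]

lemma limρLin_mk (i : K) (g : sysG F i) (x : sysV F i) :
    limρLin F ⟦⟨i, g⟩⟧ (NLim.mk _ _ i x) = NLim.mk _ _ i ((F.obj i).ρ g x) := act_mk F i g x

/-- The isometry attached to an element of the limit. -/
def limρ (g : LG F) : LV F ≃ₗᵢ[ℝ] LV F where
  toLinearEquiv := limρLin F g
  norm_map' z := by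
    obtain ⟨i, h, x, rfl, rfl⟩ := exists_rep F g z
    rw [limρLin_mk, NLim.norm_mk', NLim.norm_mk', LinearIsometryEquiv.norm_map]

lemma limρ_mk (i : K) (g : sysG F i) (x : sysV F i) :
    limρ F ⟦⟨i, g⟩⟧ (NLim.mk _ _ i x) = NLim.mk _ _ i ((F.obj i).ρ g x) := act_mk F i g x

/-- The limit contraction. -/
def limP : Op W (LV F) :=
  Op.mk' (NLim.descLin (fun i => (F.obj i).P.1.toLinearMap)
    (fun i j h x => ((F.map (homOfLE h)).proj x).symm)) (by
    intro z
    induction z using NLim.ind with
    | h i x => exact (F.obj i).P.le x)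

lemma limP_mk (i : K) (x : sysV F i) :
    (limP F).1 (NLim.mk _ _ i x) = (F.obj i).P.1 x := rfl

/-- The direct limit object. -/
def limObj : Obj W where
  V := LV F
  P := limP F
  G := LG F
  ρ := limρ F

/-- The canonical map of a stage into the limit. -/
def limι (i : K) : F.obj i ⟶ limObj F where
  j := NLim.incl (sysV F) (sysf F) i
  γ := ⟨fun g => (⟦⟨i, g⟩⟧ : LG F)⟩
  comm g x := (limρ_mk F i g x).symm
  proj x := limP_mk F i x

lemma limι_j (i : K) (x : sysV F i) : (limι F i).j x = NLim.mk (sysV F) (sysf F) i x := rfl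
lemma limι_γ (i : K) (g : sysG F i) : (limι F i).γ g = (⟦⟨i, g⟩⟧ : LG F) := rfl

lemma limι_w (i j : K) (h : i ≤ j) : F.map (homOfLE h) ≫ limι F j = limι F i := by
  apply Obj.hom_ext
  · intro x
    rw [Obj.comp_j]
    exact NLim.mk_map (f := sysf F) i j h x
  · intro g
    rw [Obj.comp_γ]
    exact DirectLimit.mk_apply (f := sysg F) i j g h

/-- The colimit cocone. -/
def limCocone : Cocone F where
  pt := limObj F
  ι :=
    { app := fun i => limι F i
      naturality := by
        intro i j h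
        have := limι_w F i j (leOfHom h)
        simp only [Functor.const_obj_obj, Functor.const_obj_map, Category.comp_id]
        exact this }

lemma cocone_w (s : Cocone F) (i j : K) (h : i ≤ j) :
    F.map (homOfLE h) ≫ s.ι.app j = s.ι.app i := s.w (homOfLE h)

/-- The descended morphism. -/
def limDesc (s : Cocone F) : limObj F ⟶ s.pt where
  j := NLim.descIso (E := sysV F) (f := sysf F) (fun i => (s.ι.app i).j) (by
    intro i j h x
    rw [← cocone_w F s i j h]
    rfl)
  γ := ⟨DirectLimit.lift (sysg F) (fun i g => (s.ι.app i).γ g) (by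
    intro i j h x
    rw [← cocone_w F s i j h]
    rfl)⟩
  comm := by
    intro g z
    obtain ⟨i, h, x, rfl, rfl⟩ := exists_rep F g z
    have h1 : (limObj F).ρ (⟦⟨i, h⟩⟧ : LG F) (NLim.mk (sysV F) (sysf F) i x) =
      NLim.mk (sysV F) (sysf F) i ((F.obj i).ρ h x) := limρ_mk F i h x
    rw [h1]
    exact (s.ι.app i).comm h x
  proj := by
    intro z
    induction z using NLim.ind with
    | h i x => exact (s.ι.app i).proj x

lemma limDesc_j (s : Cocone F) (i : K) (x : sysV F i) :
    (limDesc F s).j (NLim.mk (sysV F) (sysf F) i x) = (s.ι.app i).j x := rfl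

lemma limDesc_γ (s : Cocone F) (i : K) (g : sysG F i) :
    (limDesc F s).γ (⟦⟨i, g⟩⟧ : LG F) = (s.ι.app i).γ g := rfl

/-- The colimit cocone is a colimit. -/
def limIsColimit : IsColimit (limCocone F) where
  desc s := limDesc F s
  fac s i := by
    apply Obj.hom_ext
    · intro x
      exact limDesc_j F s i x
    · intro g
      exact limDesc_γ F s i g
  uniq s m hm := by
    apply Obj.hom_ext
    · intro z
      induction z using NLim.ind with
      | h i x =>
        refine Eq.trans ?_ (limDesc_j F s i x).symm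
        have h2 : ((limCocone F).ι.app i ≫ m).j x = (s.ι.app i).j x := by rw [hm i]
        exact h2
    · intro g
      obtain ⟨i, h, rfl⟩ := DirectLimit.exists_eq_mk (sysg F) g
      refine Eq.trans ?_ (limDesc_γ F s i h).symm
      have h2 : ((limCocone F).ι.app i ≫ m).γ h = (s.ι.app i).γ h := by rw [hm i]
      exact h2

end Colim

instance {K : Type} [Preorder K] [IsDirectedOrder K] [Nonempty K] :
    HasColimitsOfShape K (Obj W) where
  has_colimit F := ⟨⟨⟨limCocone F, limIsColimit F⟩⟩⟩

instance {J : Type} [LinearOrder J] [OrderBot J] [SuccOrder J] [WellFoundedLT J] :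
    HasIterationOfShape J (Obj W) where
  hasColimitsOfShape_of_isSuccLimit j hj := by
    have : Nonempty (Set.Iio j) := ⟨⟨⊥, by
      have := hj.bot_lt
      exact this⟩⟩
    infer_instance
  hasColimitsOfShape := inferInstance

end Pool.MP_c85420_an
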