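import Pool.Agent.Lib.MP_c85420_an.Succ

open Set Filter Topology
open scoped ENNReal

noncomputable section

set_option linter.unusedSectionVars false
set_option linter.unusedVariables false

namespace Pool.MP_c85420_an

section Lim

variable {K : Type} [Preorder K] [IsDirectedOrder K] [Nonempty K]
variable (E : K → Type) [∀ i, NormedAddCommGroup (E i)] [∀ i, NormedSpace ℝ (E i)]
variable (f : ∀ i j, i ≤ j → E i →ₗᵢ[ℝ] E j) [DirectedSystem E (fun i j h => f i j h)]

/-- The (uncompleted) direct limit of a directed system of isometric embeddings. -/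
def NLim : Type := DirectLimit E f

instance : AddCommGroup (NLim E f) := inferInstanceAs (AddCommGroup (DirectLimit E f))
instance : Module ℝ (NLim E f) := inferInstanceAs (Module ℝ (DirectLimit E f))

/-- class of an element -/
def NLim.mk (i : K) (x : E i) : NLim E f := (⟦⟨i, x⟩⟧ : DirectLimit E f)

variable {E f}

@[elab_as_elim]
lemma NLim.ind {C : NLim E f → Prop} (h : ∀ i x, C (NLim.mk E f i x)) (z : NLim E f) : C z :=
  DirectLimit.induction f h z

@[elab_as_elim]
lemma NLim.ind₂ {C : NLim E f → NLim E f → Prop}
    (h : ∀ i x y, C (NLim.mk E f i x) (NLim.mk E f i y)) (z w : NLim E f) : C z w :=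
  DirectLimit.induction₂ f h z w

lemma NLim.mk_map (i j : K) (h : i ≤ j) (x : E i) : NLim.mk E f j (f i j h x) = NLim.mk E f i x :=
  DirectLimit.mk_apply (f := f) i j x h

lemma NLim.mk_add (i : K) (x y : E i) :
    NLim.mk E f i x + NLim.mk E f i y = NLim.mk E f i (x + y) :=
  DirectLimit.add_def (f := f) i x y

lemma NLim.mk_smul (i : K) (c : ℝ) (x : E i) :
    c • NLim.mk E f i x = NLim.mk E f i (c • x) :=
  DirectLimit.smul_def (f := f) i x c

lemma NLim.zero_def (i : K) : (0 : NLim E f) = NLim.mk E f i 0 :=
  DirectLimit.zero_def (f := f) i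

instance : Norm (NLim E f) where
  norm := DirectLimit.lift f (fun _ x => ‖x‖) (fun i j h x => ((f i j h).norm_map x).symm)

lemma NLim.norm_mk (i : K) (x : E i) : ‖NLim.mk E f i x‖ = ‖x‖ := rfl

lemma NLim.core : NormedSpace.Core ℝ (NLim E f) where
  norm_nonneg z := by
    induction z using NLim.ind with
    | h i x => rw [NLim.norm_mk]; exact norm_nonneg x
  norm_smul c z := by
    induction z using NLim.ind with
    | h i x => rw [NLim.mk_smul, NLim.norm_mk, NLim.norm_mk, norm_smul]
  norm_triangle z w := by
    induction z, w using NLim.ind₂ with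
    | h i x y =>
      rw [NLim.mk_add, NLim.norm_mk, NLim.norm_mk, NLim.norm_mk]
      exact norm_add_le x y
  norm_eq_zero_iff z := by
    induction z using NLim.ind with
    | h i x =>
      rw [NLim.norm_mk, norm_eq_zero]
      constructor
      · rintro rfl
        exact (NLim.zero_def i).symm
      · intro h
        rw [NLim.zero_def i] at h
        have := DirectLimit.mk_injective f (fun i j hij => (f i j hij).injective) i h
        exact this

instance : NormedAddCommGroup (NLim E f) := NormedAddCommGroup.ofCore NLim.core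
instance : NormedSpace ℝ (NLim E f) := NormedSpace.ofCore NLim.core

lemma NLim.norm_mk' (i : K) (x : E i) : ‖NLim.mk E f i x‖ = ‖x‖ := rfl

variable (E f) in
/-- The canonical embedding of a stage. -/
def NLim.incl (i : K) : E i →ₗᵢ[ℝ] NLim E f where
  toFun := NLim.mk E f i
  map_add' x y := (NLim.mk_add i x y).symm
  map_smul' c x := (NLim.mk_smul i c x).symm
  norm_map' x := rfl

@[simp] lemma NLim.incl_apply (i : K) (x : E i) : NLim.incl E f i x = NLim.mk E f i x := rfl

/-- Linear map out of the direct limit. -/
def NLim.descLin {B : Type} [AddCommGroup B] [Module ℝ B] (g : ∀ i, E i →ₗ[ℝ] B)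
    (hg : ∀ i j h x, g i x = g j (f i j h x)) : NLim E f →ₗ[ℝ] B where
  toFun := DirectLimit.lift f (fun i x => g i x) hg
  map_add' z w := by
    induction z, w using NLim.ind₂ with
    | h i x y =>
      rw [NLim.mk_add]
      exact (g i).map_add x y
  map_smul' c z := by
    induction z using NLim.ind with
    | h i x =>
      rw [NLim.mk_smul]
      exact (g i).map_smul c x

@[simp] lemma NLim.descLin_mk {B : Type} [AddCommGroup B] [Module ℝ B] (g : ∀ i, E i →ₗ[ℝ] B)
    (hg : ∀ i j h x, g i x = g j (f i j h x)) (i : K) (x : E i) :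
    NLim.descLin g hg (NLim.mk E f i x) = g i x := rfl

/-- Isometric embedding out of the direct limit. -/
def NLim.descIso {B : Type} [NormedAddCommGroup B] [NormedSpace ℝ B] (g : ∀ i, E i →ₗᵢ[ℝ] B)
    (hg : ∀ i j h x, g i x = g j (f i j h x)) : NLim E f →ₗᵢ[ℝ] B where
  toLinearMap := NLim.descLin (fun i => (g i).toLinearMap) hg
  norm_map' z := by
    induction z using NLim.ind with
    | h i x => exact (g i).norm_map x

@[simp] lemma NLim.descIso_mk {B : Type} [NormedAddCommGroup B] [NormedSpace ℝ B]
    (g : ∀ i, E i →ₗᵢ[ℝ] B)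
    (hg : ∀ i j h x, g i x = g j (f i j h x)) (i : K) (x : E i) :
    NLim.descIso g hg (NLim.mk E f i x) = g i x := rfl

end Lim

end Pool.MP_c85420_an
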