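import Pool.Agent.Lib.MP_c85420_an.C0

open Set Filter Topology

noncomputable section

namespace Pool.MP_c85420_an

/-- The limit space is of universal disposition for finite-dimensional spaces. -/
theorem XX_UD {W : Type} [NormedAddCommGroup W] [NormedSpace ℝ W] [Nontrivial W]
    (hW : FDExt W) (J : Type) [LinearOrder J] [OrderBot J] [SuccOrder J] [WellFoundedLT J]
    [NoMaxOrder J] : UniversalDisposition finDim (XX W J) := by
  intro T _ _ _ hT S _ hS f
  have hT' : FiniteDimensional ℝ T := hT
  have hS' : FiniteDimensional ℝ S := hS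
  have : ProperSpace T := FiniteDimensional.proper_real T
  obtain ⟨jT⟩ := XX_embed (W := W) (J := J) T
  obtain ⟨Ψ, hΨ⟩ := XX_conj (J := J) hW (jT.comp S.subtypeₗᵢ) f
  exact ⟨Ψ.toLinearIsometry.comp jT, fun s => hΨ s⟩

/-- The limit space is homogeneous for finite-dimensional spaces. -/
theorem XX_Hom {W : Type} [NormedAddCommGroup W] [NormedSpace ℝ W] [Nontrivial W]
    (hW : FDExt W) (J : Type) [LinearOrder J] [OrderBot J] [SuccOrder J] [WellFoundedLT J]
    [NoMaxOrder J] : Homogeneous finDim (XX W J) := by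
  intro E F _ _ hE _ φ
  have hE' : FiniteDimensional ℝ E := hE
  exact XX_conj (J := J) hW E.subtypeₗᵢ (F.subtypeₗᵢ.comp φ.toLinearIsometry)

end Pool.MP_c85420_an
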