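import Mathlib

open Set Filter Topology
open scoped ENNReal

noncomputable section

namespace Pool.MP_c85420_an

section Succ

variable (W : Type) [NormedAddCommGroup W] [NormedSpace ℝ W]
variable (V : Type) [NormedAddCommGroup V] [NormedSpace ℝ V]

/-- Contractions `V → W`. -/
def Op : Type := {A : V →L[ℝ] W // ‖A‖ ≤ 1}

/-- Sequences of contractions. -/
abbrev LL : Type := ℕ → Op W V

/-- The enlarged space: bounded `W`-valued functions on `LL W V`. -/
abbrev VV : Type := lp (fun _ : LL W V => W) ∞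

variable {W V}

lemma Op.le (A : Op W V) (x : V) : ‖A.1 x‖ ≤ ‖x‖ := by
  have := A.1.le_opNorm x
  have h2 := A.2
  nlinarith [norm_nonneg x]

/-- Build an element of `VV V` from a bounded function. -/
def mkVV (F : LL W V → W) (C : ℝ) (h : ∀ l, ‖F l‖ ≤ C) : VV W V :=
  ⟨F, memℓp_infty ⟨C, by rintro _ ⟨l, rfl⟩; exact h l⟩⟩

@[simp] lemma mkVV_apply (F : LL W V → W) (C : ℝ) (h : ∀ l, ‖F l‖ ≤ C) (l : LL W V) :
    (mkVV F C h : VV W V) l = F l := rfl

lemma VV_norm_le {F : VV W V} {C : ℝ} (hC : 0 ≤ C) (h : ∀ l, ‖F l‖ ≤ C) : ‖F‖ ≤ C :=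
  lp.norm_le_of_forall_le hC h

lemma VV_apply_le (F : VV W V) (l : LL W V) : ‖F l‖ ≤ ‖F‖ :=
  lp.norm_apply_le_norm (by simp) F l

/-- the zero contraction -/
def Op.zero : Op W V := ⟨0, by rw [norm_zero]; exact zero_le_one⟩

/-- A contraction from a linear map with a pointwise bound. -/
def Op.mk' (f : V →ₗ[ℝ] W) (h : ∀ x, ‖f x‖ ≤ ‖x‖) : Op W V :=
  ⟨LinearMap.mkContinuous f 1 (by intro x; rw [one_mul]; exact h x),
    LinearMap.mkContinuous_norm_le _ zero_le_one _⟩

@[simp] lemma Op.mk'_apply (f : V →ₗ[ℝ] W) (h : ∀ x, ‖f x‖ ≤ ‖x‖) (x : V) :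
    (Op.mk' f h).1 x = f x := rfl

/-- Rank one contraction `f ⊗ e`. -/
def Op.rankOne (e : W) (he : ‖e‖ = 1) (f : V →L[ℝ] ℝ) (hf : ‖f‖ ≤ 1) : Op W V :=
  Op.mk'
    { toFun := fun x => f x • e
      map_add' := by intro x y; rw [map_add, add_smul]
      map_smul' := by intro c x; simp [mul_smul] } (by
        intro x
        show ‖f x • e‖ ≤ ‖x‖
        rw [norm_smul, he, mul_one]
        calc ‖f x‖ ≤ ‖f‖ * ‖x‖ := f.le_opNorm x
          _ ≤ 1 * ‖x‖ := by gcongr
          _ = ‖x‖ := one_mul _)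

lemma Op.rankOne_apply (e : W) (he : ‖e‖ = 1) (f : V →L[ℝ] ℝ) (hf : ‖f‖ ≤ 1) (x : V) :
    (Op.rankOne e he f hf).1 x = f x • e := rfl

lemma exists_norming [Nontrivial W] (x : V) : ∃ A : Op W V, ‖A.1 x‖ = ‖x‖ := by
  obtain ⟨e, he⟩ := exists_norm_eq W zero_le_one
  obtain ⟨f, hf, hfx⟩ := exists_dual_vector'' ℝ x
  refine ⟨Op.rankOne e he f hf, ?_⟩
  rw [Op.rankOne_apply, norm_smul, he, mul_one, hfx]
  simp

/-- The canonical embedding `V → VV V`. -/
def eta [Nontrivial W] : V →ₗᵢ[ℝ] VV W V where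
  toFun x := mkVV (fun l => (l 0).1 x) ‖x‖ (fun l => (l 0).le x)
  map_add' x y := by
    ext1; funext l
    simp [mkVV]
  map_smul' c x := by
    ext1; funext l
    simp [mkVV]
  norm_map' x := by
    apply le_antisymm
    · exact VV_norm_le (norm_nonneg x) (fun l => (l 0).le x)
    · obtain ⟨A, hA⟩ := exists_norming (W := W) x
      have := VV_apply_le (mkVV (fun l : LL W V => (l 0).1 x) ‖x‖ (fun l => (l 0).le x))
        (fun _ => A)
      rw [mkVV_apply, hA] at this
      exact this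

@[simp] lemma eta_apply [Nontrivial W] (x : V) (l : LL W V) :
    (eta x : VV W V) l = (l 0).1 x := rfl

/-- Composition with a bijection of `LL V` is an isometry of `VV V`. -/
def compIso (T : LL W V ≃ LL W V) : VV W V ≃ₗᵢ[ℝ] VV W V where
  toFun F := mkVV (fun l => F (T l)) ‖F‖ (fun l => VV_apply_le F _)
  invFun F := mkVV (fun l => F (T.symm l)) ‖F‖ (fun l => VV_apply_le F _)
  map_add' F G := by
    ext1; funext l
    simp [mkVV]
  map_smul' c F := by
    ext1; funext l
    simp [mkVV]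
  left_inv F := by
    ext1; funext l
    simp [mkVV]
  right_inv F := by
    ext1; funext l
    simp [mkVV]
  norm_map' F := by
    apply le_antisymm
    · exact VV_norm_le (norm_nonneg F) (fun l => VV_apply_le F _)
    · apply VV_norm_le (norm_nonneg _)
      intro l
      have := VV_apply_le (mkVV (fun l => F (T l)) ‖F‖ (fun l => VV_apply_le F _)) (T.symm l)
      simpa using this

@[simp] lemma compIso_apply (T : LL W V ≃ LL W V) (F : VV W V) (l : LL W V) :
    (compIso T F) l = F (T l) := rfl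

/-- Composition of a contraction with a linear isometric embedding. -/
def Op.comp {E : Type} [NormedAddCommGroup E] [NormedSpace ℝ E] (A : Op W V) (h : E →ₗᵢ[ℝ] V) :
    Op W E :=
  Op.mk' (A.1.toLinearMap.comp h.toLinearMap) (by
    intro x
    have := A.le (h x)
    rw [LinearIsometry.norm_map] at this
    exact this)

@[simp] lemma Op.comp_apply {E : Type} [NormedAddCommGroup E] [NormedSpace ℝ E]
    (A : Op W V) (h : E →ₗᵢ[ℝ] V) (x : E) : (A.comp h).1 x = A.1 (h x) := rfl

lemma Op.ext' {A B : Op W V} (h : ∀ x, A.1 x = B.1 x) : A = B := by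
  apply Subtype.ext
  ext1 x
  exact h x

/-- The canonical extension of an isometry of `V` to one of `VV V`. -/
def hat (h : V ≃ₗᵢ[ℝ] V) : VV W V ≃ₗᵢ[ℝ] VV W V :=
  compIso
    { toFun := fun l n => (l n).comp h.toLinearIsometry
      invFun := fun l n => (l n).comp h.symm.toLinearIsometry
      left_inv := by
        intro l; funext n; apply Op.ext'; intro x
        simp
      right_inv := by
        intro l; funext n; apply Op.ext'; intro x
        simp }

lemma hat_eta [Nontrivial W] (h : V ≃ₗᵢ[ℝ] V) (x : V) :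
    (hat h (eta x) : VV W V) = eta (h x) := by
  ext1; funext l
  rfl

/-- Extension of a contraction `P : V → c₀` to a contraction `VV V → c₀`. -/
def extP (P : Op W V) : Op W (VV W V) :=
  Op.mk'
    { toFun := fun F => F (fun _ => P)
      map_add' := by intro F G; rfl
      map_smul' := by intro c F; rfl } (by
        intro F
        exact VV_apply_le F _)

lemma extP_eta [Nontrivial W] (P : Op W V) (x : V) : (extP P).1 (eta x) = P.1 x := rfl

end Succ

section Extend

variable (W : Type) [NormedAddCommGroup W] [NormedSpace ℝ W]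

/-- Contractions from finite-dimensional spaces into `W` extend, with contractive extension. -/
def FDExt : Prop :=
  ∀ (V : Type) [NormedAddCommGroup V] [NormedSpace ℝ V] (E : Type) [NormedAddCommGroup E]
    [NormedSpace ℝ E] [FiniteDimensional ℝ E] (a : E →ₗᵢ[ℝ] V) (c : Op W E),
    ∃ A : Op W V, A.comp a = c

variable {W}

lemma bij_fiber {O B : Type} (r : O → B) (b : B) (hb : ∃ o, r o = b) :
    Nonempty ({l : ℕ → O // r (l 0) = b} ≃ (ℕ → O)) := by
  obtain ⟨o, ho⟩ := hb
  apply Function.Embedding.antisymm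
  · exact ⟨Subtype.val, Subtype.val_injective⟩
  · refine ⟨fun m => ⟨fun n => Nat.casesOn n o m, ho⟩, ?_⟩
    intro m m' h
    funext n
    have := congrFun (congrArg Subtype.val h) (n + 1)
    exact this

lemma exists_bij {O B : Type} (r₁ r₂ : O → B) (h₁ : Function.Surjective r₁)
    (h₂ : Function.Surjective r₂) :
    ∃ T : (ℕ → O) ≃ (ℕ → O), ∀ l, r₂ (T l 0) = r₁ (l 0) := by
  have e₁ : ∀ b, Nonempty ({l : ℕ → O // r₁ (l 0) = b} ≃ (ℕ → O)) :=
    fun b => bij_fiber r₁ b (h₁ b)
  have e₂ : ∀ b, Nonempty ({l : ℕ → O // r₂ (l 0) = b} ≃ (ℕ → O)) :=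
    fun b => bij_fiber r₂ b (h₂ b)
  have f₁ := fun b => (e₁ b).some
  have f₂ := fun b => (e₂ b).some
  refine ⟨((Equiv.sigmaFiberEquiv (fun l : ℕ → O => r₁ (l 0))).symm.trans
    (Equiv.sigmaCongrRight (fun b => (f₁ b).trans (f₂ b).symm))).trans
    (Equiv.sigmaFiberEquiv (fun l : ℕ → O => r₂ (l 0))), ?_⟩
  intro l
  simp only [Equiv.trans_apply, Equiv.sigmaCongrRight_apply]
  exact ((f₂ _).symm ((f₁ _) ⟨l, rfl⟩)).2

/-- Key step: two isometric copies of a finite-dimensional space in `V` are conjugate by an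
isometry of `VV V`. -/
theorem exists_conj [Nontrivial W] (hW : FDExt W) {V : Type} [NormedAddCommGroup V]
    [NormedSpace ℝ V] {E : Type} [NormedAddCommGroup E] [NormedSpace ℝ E]
    [FiniteDimensional ℝ E] (a b : E →ₗᵢ[ℝ] V) :
    ∃ ψ : VV W V ≃ₗᵢ[ℝ] VV W V, ∀ x, ψ (eta (a x)) = eta (b x) := by
  obtain ⟨T, hT⟩ := exists_bij (fun A : Op W V => A.comp b) (fun A : Op W V => A.comp a)
    (fun c => hW V E b c) (fun c => hW V E a c)
  refine ⟨compIso T, ?_⟩
  intro x
  ext1; funext l
  have := congrArg (fun A : Op W E => A.1 x) (hT l)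
  exact this

end Extend

end Pool.MP_c85420_an
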