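import Pool.Agent.Lib.MP_c85420_an.Cat

open Set Filter Topology CategoryTheory CategoryTheory.Limits
open scoped ENNReal

noncomputable section

set_option linter.unusedSectionVars false
set_option linter.unusedVariables false

namespace Pool.MP_c85420_an

variable {W : Type} [NormedAddCommGroup W] [NormedSpace ℝ W] [Nontrivial W]

/-- Successor step. -/
def succObj (A : Obj W) : Obj W where
  V := VV W A.V
  P := extP A.P
  G := VV W A.V ≃ₗᵢ[ℝ] VV W A.V
  ρ := fun g => g

/-- The map to the successor. -/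
def toSuccObj (A : Obj W) : A ⟶ succObj A where
  j := eta
  γ := ⟨fun g => (hat (A.ρ g) : VV W A.V ≃ₗᵢ[ℝ] VV W A.V)⟩
  comm g x := (hat_eta _ _).symm
  proj x := extP_eta _ _

variable (W) in
/-- The identity contraction. -/
def Op.idd : Op W W := Op.mk' LinearMap.id (fun _ => le_rfl)

lemma Op.idd_apply (x : W) : (Op.idd W).1 x = x := rfl

variable (W) in
/-- The successor structure that is iterated. -/
def Φ : SmallObject.SuccStruct (Obj W) where
  X₀ := { V := W, P := Op.idd W, G := PEmpty, ρ := fun g => g.elim }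
  succ := succObj
  toSucc := toSuccObj

variable (W) (J : Type) [LinearOrder J] [OrderBot J] [SuccOrder J] [WellFoundedLT J]

/-- The tower. -/
def tower : J ⥤ Obj W := (Φ W).iterationFunctor J

/-- The space. -/
abbrev XX : Type := LV (tower W J)

variable {J}

/-- successor stages -/
def succIso [NoMaxOrder J] (j : J) : (tower W J).obj (Order.succ j) ≅ succObj ((tower W J).obj j) :=
  (Φ W).iterationFunctorObjSuccIso j (not_isMax j)

lemma map_succ [NoMaxOrder J] (j : J) :
    (tower W J).map (homOfLE (Order.le_succ j)) =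
      toSuccObj ((tower W J).obj j) ≫ (succIso W j).inv :=
  (Φ W).iterationFunctor_map_succ j (not_isMax j)

lemma sysf_succ [NoMaxOrder J] (j : J) (x : ((tower W J).obj j).V) :
    sysf (tower W J) j (Order.succ j) (Order.le_succ j) x = (succIso W j).inv.j (eta x) := by
  unfold sysf
  rw [map_succ]
  rfl

/-- bottom stage -/
def botIso : (tower W J).obj ⊥ ≅ (Φ W).X₀ := (Φ W).iterationFunctorObjBotIso J

variable {W}

lemma mk_map_succ [NoMaxOrder J] (j : J) (x : ((tower W J).obj j).V) :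
    NLim.mk (sysV (tower W J)) (sysf (tower W J)) j x =
      NLim.mk (sysV (tower W J)) (sysf (tower W J)) (Order.succ j)
        ((succIso W j).inv.j (eta x)) :=
  (NLim.mk_map (f := sysf (tower W J)) j (Order.succ j) (Order.le_succ j) x).symm.trans
    (congrArg (NLim.mk (sysV (tower W J)) (sysf (tower W J)) (Order.succ j)) (sysf_succ W j x))

/-- Conjugacy inside a stage. -/
lemma stage_conj [NoMaxOrder J] (hW : FDExt W) (j : J) {E : Type} [NormedAddCommGroup E]
    [NormedSpace ℝ E] [FiniteDimensional ℝ E] (a b : E →ₗᵢ[ℝ] sysV (tower W J) j) :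
    ∃ Ψ : XX W J ≃ₗᵢ[ℝ] XX W J, ∀ x, Ψ (NLim.mk _ _ j (a x)) = NLim.mk _ _ j (b x) := by
  obtain ⟨ψ, hψ⟩ := exists_conj (W := W) hW a b
  refine ⟨limρ (tower W J) (⟦⟨Order.succ j, (succIso W j).inv.γ ψ⟩⟧ : LG (tower W J)), ?_⟩
  intro x
  rw [mk_map_succ j (a x), mk_map_succ j (b x), limρ_mk]
  congr 1
  rw [← hψ x]
  exact ((succIso W j).inv.comm ψ (eta (a x))).symm

lemma exists_lift_isometry {E V X : Type} [NormedAddCommGroup E] [NormedSpace ℝ E]
    [NormedAddCommGroup V] [NormedSpace ℝ V] [NormedAddCommGroup X] [NormedSpace ℝ X]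
    (a : E →ₗᵢ[ℝ] X) (i : V →ₗᵢ[ℝ] X) (h : ∀ x, ∃ y, i y = a x) :
    ∃ a' : E →ₗᵢ[ℝ] V, ∀ x, i (a' x) = a x := by
  choose g hg using h
  refine ⟨{ toFun := g, map_add' := ?_, map_smul' := ?_, norm_map' := ?_ }, hg⟩
  · intro x y
    apply i.injective
    rw [map_add, hg, hg, hg, map_add]
  · intro c x
    apply i.injective
    rw [RingHom.id_apply, map_smul, hg, hg, map_smul]
  · intro x
    show ‖g x‖ = ‖x‖
    rw [← i.norm_map (g x), hg, a.norm_map]

lemma exists_factor {K : Type} [Preorder K] [IsDirectedOrder K] [Nonempty K]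
    (F : K → Type) [∀ i, NormedAddCommGroup (F i)] [∀ i, NormedSpace ℝ (F i)]
    (f : ∀ i j, i ≤ j → F i →ₗᵢ[ℝ] F j) [DirectedSystem F (fun i j h => f i j h)]
    {E : Type} [NormedAddCommGroup E]
    [NormedSpace ℝ E] [FiniteDimensional ℝ E] (a : E →ₗᵢ[ℝ] NLim F f) :
    ∃ i, ∃ a' : E →ₗᵢ[ℝ] F i, ∀ x, NLim.mk F f i (a' x) = a x := by
  let b := Module.finBasis ℝ E
  have h1 : ∀ k, ∃ i, ∃ y : F i, NLim.mk F f i y = a (b k) := by
    intro k
    obtain ⟨i, y, h⟩ := DirectLimit.exists_eq_mk f (a (b k))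
    exact ⟨i, y, h.symm⟩
  choose i y hy using h1
  obtain ⟨m, hm⟩ := (directed_id (α := K) (r := (· ≤ ·))).finite_le i
  have h2 : ∀ x : E, ∃ z, NLim.incl F f m z = a x := by
    intro x
    have hx : x ∈ Submodule.span ℝ (Set.range b) := by rw [b.span_eq]; trivial
    induction hx using Submodule.span_induction with
    | mem z hz =>
      obtain ⟨k, rfl⟩ := hz
      refine ⟨f (i k) m (hm k) (y k), ?_⟩
      rw [NLim.incl_apply, NLim.mk_map, hy]
    | zero => exact ⟨0, by rw [map_zero, map_zero]⟩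
    | add u v _ _ hu hv =>
      obtain ⟨u', hu'⟩ := hu
      obtain ⟨v', hv'⟩ := hv
      exact ⟨u' + v', by rw [map_add, map_add, hu', hv']⟩
    | smul c u _ hu =>
      obtain ⟨u', hu'⟩ := hu
      exact ⟨c • u', by rw [map_smul, map_smul, hu']⟩
  obtain ⟨a', ha'⟩ := exists_lift_isometry a (NLim.incl F f m) h2
  exact ⟨m, a', ha'⟩

/-- Finite-dimensional homogeneity of the limit space, in conjugacy form. -/
theorem XX_conj [NoMaxOrder J] (hW : FDExt W) {E : Type} [NormedAddCommGroup E]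
    [NormedSpace ℝ E] [FiniteDimensional ℝ E] (a b : E →ₗᵢ[ℝ] XX W J) :
    ∃ Ψ : XX W J ≃ₗᵢ[ℝ] XX W J, ∀ x, Ψ (a x) = b x := by
  obtain ⟨i, a', ha'⟩ := exists_factor _ _ a
  obtain ⟨j, b', hb'⟩ := exists_factor _ _ b
  obtain ⟨Ψ, hΨ⟩ := stage_conj hW (max i j)
    ((sysf (tower W J) i (max i j) (le_max_left i j)).comp a')
    ((sysf (tower W J) j (max i j) (le_max_right i j)).comp b')
  refine ⟨Ψ, fun x => ?_⟩
  have h1 : NLim.mk (sysV (tower W J)) (sysf (tower W J)) (max i j)
      (((sysf (tower W J) i (max i j) (le_max_left i j)).comp a') x) = a x :=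
    (NLim.mk_map (f := sysf (tower W J)) i (max i j) (le_max_left i j) (a' x)).trans (ha' x)
  have h2 : NLim.mk (sysV (tower W J)) (sysf (tower W J)) (max i j)
      (((sysf (tower W J) j (max i j) (le_max_right i j)).comp b') x) = b x :=
    (NLim.mk_map (f := sysf (tower W J)) j (max i j) (le_max_right i j) (b' x)).trans (hb' x)
  rw [← h1, ← h2]
  exact hΨ x

/-- Completeness of the limit space. -/
theorem XX_complete [CompleteSpace W] [NoMaxOrder J]
    (hJ : ∀ u : ℕ → J, ∃ b, ∀ n, u n ≤ b) : CompleteSpace (XX W J) := by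
  apply Metric.complete_of_cauchySeq_tendsto
  intro u hu
  have h1 : ∀ n, ∃ i, ∃ y : sysV (tower W J) i, NLim.mk (sysV (tower W J)) (sysf (tower W J)) i y
      = u n := by
    intro n
    obtain ⟨i, y, h⟩ := DirectLimit.exists_eq_mk _ (u n)
    exact ⟨i, y, h.symm⟩
  choose i y hy using h1
  obtain ⟨b, hb⟩ := hJ i
  set z : ℕ → sysV (tower W J) b := fun n => sysf (tower W J) (i n) b (hb n) (y n) with hz
  have hzu : ∀ n, NLim.mk (sysV (tower W J)) (sysf (tower W J)) b (z n) = u n := by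
    intro n
    rw [hz, NLim.mk_map, hy]
  let I : sysV (tower W J) b →ₗᵢ[ℝ] XX W J := NLim.incl _ _ b
  have hI : ∀ n, I (z n) = u n := hzu
  have hzc : CauchySeq z := by
    have : CauchySeq (I ∘ z) := by
      have h3 : I ∘ z = u := funext hI
      rw [h3]; exact hu
    exact (I.isometry.isUniformInducing.cauchy_map_iff).1 (by
      rw [Filter.map_map]; exact this)
  have hec : CauchySeq (fun n => (eta (z n) : VV W (sysV (tower W J) b))) :=
    (eta (W := W)).isometry.uniformContinuous.comp_cauchySeq hzc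
  obtain ⟨L, hL⟩ := cauchySeq_tendsto_of_complete hec
  refine ⟨NLim.mk _ _ (Order.succ b) ((succIso W b).inv.j L), ?_⟩
  let I' : sysV (tower W J) (Order.succ b) →ₗᵢ[ℝ] XX W J := NLim.incl _ _ (Order.succ b)
  have h5 : Tendsto (fun n => I' ((succIso W b).inv.j (eta (z n)))) atTop
      (𝓝 (I' ((succIso W b).inv.j L))) :=
    (I'.continuous.comp ((succIso W b).inv.j).continuous).continuousAt.tendsto.comp hL
  have h6 : (fun n => I' ((succIso W b).inv.j (eta (z n)))) = u := by
    funext n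
    rw [← hzu n, mk_map_succ b (z n)]
    rfl
  rw [h6] at h5
  exact h5

/-- Finite-dimensional (more generally separable) spaces embed into `VV W V`. -/
lemma exists_embed {V : Type} [NormedAddCommGroup V] [NormedSpace ℝ V] [Nontrivial (Op W V)]
    (T : Type) [NormedAddCommGroup T] [NormedSpace ℝ T] [TopologicalSpace.SeparableSpace T] :
    Nonempty (T →ₗᵢ[ℝ] VV W V) := by
  obtain ⟨e, he⟩ := exists_norm_eq W zero_le_one
  let r : LL W V → ℕ := Function.invFun (Infinite.natEmbedding (LL W V))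
  have hr : ∀ k, ∃ l, r l = k :=
    Function.invFun_surjective (Infinite.natEmbedding (LL W V)).injective
  have hf : ∀ k, ∃ f : T →L[ℝ] ℝ, ‖f‖ ≤ 1 ∧ f (TopologicalSpace.denseSeq T k) =
      ‖TopologicalSpace.denseSeq T k‖ := by
    intro k
    obtain ⟨f, h1, h2⟩ := exists_dual_vector'' ℝ (TopologicalSpace.denseSeq T k)
    exact ⟨f, h1, by simpa using h2⟩
  choose f hf1 hf2 using hf
  have hle : ∀ k t, ‖f k t‖ ≤ ‖t‖ := by
    intro k t
    calc ‖f k t‖ ≤ ‖f k‖ * ‖t‖ := (f k).le_opNorm t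
      _ ≤ 1 * ‖t‖ := by gcongr; exact hf1 k
      _ = ‖t‖ := one_mul _
  have hle' : ∀ (t : T) (l : LL W V), ‖f (r l) t • e‖ ≤ ‖t‖ := by
    intro t l
    rw [norm_smul, he, mul_one]
    exact hle _ _
  refine ⟨{ toFun := fun t => mkVV (fun l => f (r l) t • e) ‖t‖ (hle' t)
            map_add' := ?_, map_smul' := ?_, norm_map' := ?_ }⟩
  · intro s t
    ext1; funext l
    show f (r l) (s + t) • e = f (r l) s • e + f (r l) t • e
    rw [map_add, add_smul]
  · intro c t
    ext1; funext l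
    show f (r l) (c • t) • e = c • (f (r l) t • e)
    rw [map_smul, smul_eq_mul, mul_smul]
  · intro t
    show ‖mkVV (fun l => f (r l) t • e) ‖t‖ (hle' t)‖ = ‖t‖
    apply le_antisymm
    · exact VV_norm_le (norm_nonneg t) (hle' t)
    · apply le_of_forall_pos_le_add
      intro ε hε
      obtain ⟨k, hk⟩ := (TopologicalSpace.denseRange_denseSeq T).exists_dist_lt t
        (half_pos hε)
      obtain ⟨l, hl⟩ := hr k
      have h1 := VV_apply_le (mkVV (fun l => f (r l) t • e) ‖t‖ (hle' t)) l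
      rw [mkVV_apply, hl, norm_smul, he, mul_one] at h1
      set d := TopologicalSpace.denseSeq T k with hd
      have h2 : ‖f k (t - d)‖ ≤ ‖t - d‖ := hle k _
      have h3 : ‖f k d‖ = ‖d‖ := by rw [hd, hf2 k]; simp
      have h4 : ‖f k d‖ ≤ ‖f k t‖ + ‖f k (t - d)‖ := by
        have : f k d = f k t - f k (t - d) := by rw [map_sub]; ring
        rw [this]
        exact norm_sub_le _ _
      have h5 : ‖t‖ ≤ ‖d‖ + ‖t - d‖ := by
        calc ‖t‖ = ‖d + (t - d)‖ := by congr 1; abel
          _ ≤ _ := norm_add_le _ _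
      rw [dist_eq_norm] at hk
      linarith

lemma bot_proj (w : W) : ((tower W J).obj ⊥).P.1 ((botIso W (J := J)).inv.j w) = w :=
  (botIso W (J := J)).inv.proj w

lemma nontrivial_Op_bot : Nontrivial (Op W ((tower W J).obj ⊥).V) := by
  obtain ⟨w, hw⟩ := exists_ne (0 : W)
  refine ⟨⟨((tower W J).obj ⊥).P, Op.zero, ?_⟩⟩
  intro h
  apply hw
  rw [← bot_proj (J := J) w, h]
  rfl

/-- Separable spaces embed isometrically. -/
theorem XX_embed [NoMaxOrder J] (T : Type) [NormedAddCommGroup T] [NormedSpace ℝ T]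
    [TopologicalSpace.SeparableSpace T] :
    Nonempty (T →ₗᵢ[ℝ] XX W J) := by
  have : Nontrivial (Op W ((tower W J).obj ⊥).V) := nontrivial_Op_bot
  obtain ⟨g⟩ := exists_embed (W := W) (V := ((tower W J).obj ⊥).V) T
  exact ⟨(NLim.incl _ _ (Order.succ ⊥)).comp (((succIso W (⊥ : J)).inv.j).comp g)⟩

/-- The copy of `W` in the limit space and the norm-one projection. -/
theorem XX_proj : ∃ (i : W →ₗᵢ[ℝ] XX W J) (P : Op W (XX W J)), ∀ w, P.1 (i w) = w :=
  ⟨(NLim.incl _ _ ⊥).comp (botIso W (J := J)).inv.j, limP _, fun w => bot_proj w⟩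

end Pool.MP_c85420_an
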